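import Pool.Agent.H239.TR.Basic

/-!
# Arithmetic lemmas for the construction
-/

namespace Pool.Agent.H239.TR

open Filter Topology

theorem residue (s t M : ℕ) (ht : Odd t)
    (hg : ∀ l : ℕ, l.Prime → l ∣ s → l ∣ t → ¬ l ∣ M) :
    ∃ r : ℕ, ∀ p q k : ℕ, p.Prime → t < p → q = r + t * k →
      IsCoprime ((2 * M * p : ℤ) - s * q) t := by
  have ht0 : t ≠ 0 := by
    rintro rfl
    simp at ht
  refine ⟨∏ l ∈ t.primeFactors.filter (fun l => ¬ l ∣ M), l, ?_⟩
  intro p q k hp htp hq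
  by_contra hcon
  rw [Int.isCoprime_iff_gcd_eq_one] at hcon
  obtain ⟨l, hl, hd⟩ := Nat.exists_prime_and_dvd hcon
  have h1 : (l : ℤ) ∣ (2 * M * p : ℤ) - s * q :=
    (Int.natCast_dvd_natCast.2 hd).trans (Int.gcd_dvd_left _ _)
  have h2 : (l : ℤ) ∣ t := (Int.natCast_dvd_natCast.2 hd).trans (Int.gcd_dvd_right _ _)
  have h2' : l ∣ t := Int.natCast_dvd_natCast.1 h2
  have hlp : Prime (l : ℤ) := Nat.prime_iff_prime_int.1 hl
  have hlt : l ≤ t := Nat.le_of_dvd (Nat.pos_of_ne_zero ht0) h2'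
  have hl_p : ¬ l ∣ p := by
    intro h
    have := (Nat.prime_dvd_prime_iff_eq hl hp).1 h
    omega
  have hl_2 : ¬ l ∣ 2 := by
    intro h
    have := (Nat.prime_dvd_prime_iff_eq hl Nat.prime_two).1 h
    subst this
    exact (Nat.not_even_iff_odd.2 ht) (even_iff_two_dvd.2 h2')
  by_cases hM : l ∣ M
  · have hsq : (l : ℤ) ∣ s * q := by
      have h3 : (l : ℤ) ∣ 2 * M * p := by
        have : (l : ℤ) ∣ M := Int.natCast_dvd_natCast.2 hM
        exact (this.mul_left 2).mul_right _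
      have := dvd_sub h3 h1
      simpa using this
    have hsq' : l ∣ s * q := by exact_mod_cast hsq
    rcases (Nat.Prime.dvd_mul hl).1 hsq' with h | h
    · exact hg l hl h h2' hM
    · rw [hq] at h
      have h4 : l ∣ ∏ l ∈ t.primeFactors.filter (fun l => ¬ l ∣ M), l :=
        (Nat.dvd_add_left (h2'.mul_right k)).1 h
      rw [Prime.dvd_finsetProd_iff hl.prime] at h4
      obtain ⟨l', hl', hdl⟩ := h4
      rw [Finset.mem_filter] at hl'
      have := (Nat.prime_dvd_prime_iff_eq hl (Nat.prime_of_mem_primeFactors hl'.1)).1 hdl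
      subst this
      exact hl'.2 hM
  · have h4 : l ∣ ∏ l ∈ t.primeFactors.filter (fun l => ¬ l ∣ M), l := by
      apply Finset.dvd_prod_of_mem
      rw [Finset.mem_filter]
      exact ⟨Nat.mem_primeFactors.2 ⟨hl, h2', ht0⟩, hM⟩
    have h5 : l ∣ q := by
      rw [hq]
      exact dvd_add h4 (h2'.mul_right k)
    have h6 : (l : ℤ) ∣ 2 * M * p := by
      have h7 : (l : ℤ) ∣ s * q := (Int.natCast_dvd_natCast.2 h5).mul_left _
      have := dvd_add h1 h7
      simpa using this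
    have h6' : l ∣ 2 * M * p := by exact_mod_cast h6
    rcases (Nat.Prime.dvd_mul hl).1 h6' with h | h
    · rcases (Nat.Prime.dvd_mul hl).1 h with h | h
      · exact hl_2 h
      · exact hM h
    · exact hl_p h

theorem exists_pq (s t M : ℕ) (ht : Odd t)
    (hg : ∀ l : ℕ, l.Prime → l ∣ s → l ∣ t → ¬ l ∣ M) {α δ : ℝ} (hα : 0 < α) (hδ : 0 < δ)
    (K : ℕ) : ∃ p q : ℕ, p.Prime ∧ K < p ∧ K < q ∧ |(p : ℝ) / q - α| < δ ∧ ¬ p ∣ q ∧
      IsCoprime ((2 * M * p : ℤ) - s * q) t := by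
  obtain ⟨r, hr⟩ := residue s t M ht hg
  have ht0 : 0 < t := by
    rcases Nat.eq_zero_or_pos t with h | h
    · rw [h] at ht
      simp at ht
    · exact h
  have ht0' : (0 : ℝ) < t := by exact_mod_cast ht0
  obtain ⟨B, hB⟩ := exists_nat_gt (α * (t + K) + α * (t + α * (r + t) / δ))
  obtain ⟨p, hpB, hp⟩ := Nat.exists_infinite_primes (B + K + t + 1)
  have hpB' : (B : ℝ) ≤ p := by
    have : B ≤ p := by omega
    exact_mod_cast this
  set k := ⌊(p : ℝ) / (α * t)⌋₊ with hk
  have hp0 : (0 : ℝ) ≤ (p : ℝ) / (α * t) := by positivity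
  have f1 : (k : ℝ) ≤ (p : ℝ) / (α * t) := Nat.floor_le hp0
  have f2 : (p : ℝ) / (α * t) < k + 1 := Nat.lt_floor_add_one _
  have hαt : 0 < α * t := by positivity
  rw [le_div_iff₀ hαt] at f1
  rw [div_lt_iff₀ hαt] at f2
  have hcommon : ∀ q : ℕ, (q = r + t * k ∨ q = r + t * (k + 1)) →
      K < q ∧ |(p : ℝ) / q - α| < δ ∧ IsCoprime ((2 * M * p : ℤ) - s * q) t := by
    intro q hq
    have hlow : (p : ℝ) < α * (q + t) := by
      rcases hq with h | h <;> rw [h] <;> push_cast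
      · have : (0 : ℝ) ≤ α * r := by positivity
        nlinarith
      · have : (0 : ℝ) ≤ α * r := by positivity
        nlinarith
    have hup : α * q ≤ p + α * (r + t) := by
      rcases hq with h | h <;> rw [h] <;> push_cast <;> nlinarith
    have hex1 : 0 ≤ α * (t + α * (r + t) / δ) := by positivity
    have hex2 : 0 ≤ α * (t + K) := by positivity
    have hKq : (K : ℝ) < q := by
      have : α * (t + K) < α * (q + t) := by linarith
      have := lt_of_mul_lt_mul_left this hα.le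
      linarith
    have hKq' : K < q := by exact_mod_cast hKq
    have hq0 : (0 : ℝ) < q := lt_of_le_of_lt (by positivity) hKq
    refine ⟨hKq', ?_, ?_⟩
    · have e1 : (p : ℝ) / q - α = (p - α * q) / q := by
        field_simp
      rw [e1, abs_div, abs_of_pos hq0, div_lt_iff₀ hq0]
      have h3 : α * (t + α * (r + t) / δ) < α * (q + t) := by linarith
      have h4 := lt_of_mul_lt_mul_left h3 hα.le
      have h5 : α * (r + t) / δ < q := by linarith
      rw [div_lt_iff₀ hδ] at h5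
      have h6 : |(p : ℝ) - α * q| ≤ α * (r + t) := by
        rw [abs_le]
        constructor
        · linarith
        · have : (0 : ℝ) ≤ α * r := by positivity
          nlinarith
      nlinarith
    · rcases hq with h | h
      · exact hr p q k hp (by omega) h
      · exact hr p q (k + 1) hp (by omega) h
  by_cases hdiv : p ∣ r + t * k
  · have hdiv' : ¬ p ∣ r + t * (k + 1) := by
      intro h
      have h2 : r + t * (k + 1) = (r + t * k) + t := by ring
      rw [h2] at h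
      have h3 := (Nat.dvd_add_right hdiv).1 h
      have := Nat.le_of_dvd ht0 h3
      omega
    obtain ⟨h1, h2, h3⟩ := hcommon _ (Or.inr rfl)
    exact ⟨p, _, hp, by omega, h1, h2, hdiv', h3⟩
  · obtain ⟨h1, h2, h3⟩ := hcommon _ (Or.inl rfl)
    exact ⟨p, _, hp, by omega, h1, h2, hdiv, h3⟩

/-- nonvanishing on the `α` side -/
theorem alpha_ne {p q s : ℕ} {α u : ℝ} {n : ℤ} (hp : Nat.Coprime p q) (hs : Odd s)
    (hα : α * q = p) (hn0 : n ≠ 0) (hn : |n| < q) (hu : u = α * n + s / 2 ∨ u = -(α * n + s / 2)) :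
    cc u ≠ 0 := by
  intro h
  have h' : cc (α * n + s / 2) = 0 := by
    rcases hu with hu | hu
    · rwa [hu] at h
    · rwa [hu, cc_neg] at h
  rw [cc_eq_zero_iff] at h'
  obtain ⟨k, hk⟩ := h'
  obtain ⟨c, hc⟩ := hs
  have h1 : (p : ℝ) * n = q * (k - c) := by
    have : (s : ℝ) = 2 * c + 1 := by
      rw [hc]
      push_cast
      ring
    rw [← hα]
    rw [this] at hk
    have h2 : α * n = k - c := by linarith
    calc α * q * n = q * (α * n) := by ring
      _ = _ := by rw [h2]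
  have h1' : (p : ℤ) * n = q * (k - c) := by exact_mod_cast h1
  have h2 : (q : ℤ) ∣ p * n := ⟨_, h1'⟩
  have hcop : IsCoprime (q : ℤ) (p : ℤ) := (Nat.isCoprime_iff_coprime.2 hp).symm
  have h3 : (q : ℤ) ∣ n := hcop.dvd_of_dvd_mul_left h2
  have h4 := Int.le_of_dvd (abs_pos.2 hn0) ((dvd_abs _ _).2 h3)
  omega

/-- nonvanishing on the `β` side -/
theorem beta_ne {p t : ℕ} {W n : ℤ} {β u : ℝ} (hWt : IsCoprime W t) (hWp : IsCoprime W p)
    (ht : Odd t) (hβ : β * W = t * p) (hn0 : 0 < n) (hn : n < W)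
    (hu : u = β * n - t / 2 ∨ u = -(β * n - t / 2)) : cc u ≠ 0 := by
  intro h
  have h' : cc (β * n - t / 2) = 0 := by
    rcases hu with hu | hu
    · rwa [hu] at h
    · rwa [hu, cc_neg] at h
  rw [cc_eq_zero_iff] at h'
  obtain ⟨k, hk⟩ := h'
  obtain ⟨c, hc⟩ := ht
  have h1 : (t * p : ℝ) * n = W * (k + c + 1) := by
    have : (t : ℝ) = 2 * c + 1 := by
      rw [hc]
      push_cast
      ring
    rw [← hβ]
    rw [this] at hk
    have h2 : β * n = k + c + 1 := by linarith
    calc β * W * n = W * (β * n) := by ring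
      _ = _ := by rw [h2]
  have h1' : (t * p : ℤ) * n = W * (k + c + 1) := by exact_mod_cast h1
  have h2 : W ∣ (t * p) * n := ⟨_, h1'⟩
  have h3 : W ∣ n := (hWt.mul_right hWp).dvd_of_dvd_mul_left h2
  have h4 := Int.le_of_dvd hn0 h3
  omega

theorem sin_alpha_ne {p q d : ℕ} {α : ℝ} (hp : Nat.Coprime p q) (hα : α * q = p) (hd0 : 0 < d)
    (hd : d < q) : Real.sin (Real.pi * (d * α)) ≠ 0 := by
  intro h
  rw [Real.sin_eq_zero_iff] at h
  obtain ⟨n, hn⟩ := h
  have hpi := Real.pi_pos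
  have h1 : (n : ℝ) = d * α := by
    have : Real.pi * n = Real.pi * (d * α) := by linarith
    exact mul_left_cancel₀ hpi.ne' this
  have h2 : (p : ℝ) * d = q * n := by
    rw [h1, ← hα]
    ring
  have h2' : (p : ℤ) * d = q * n := by exact_mod_cast h2
  have h3 : (q : ℤ) ∣ p * d := ⟨_, h2'⟩
  have h3' : q ∣ p * d := by exact_mod_cast h3
  have h4 : q ∣ d := hp.symm.dvd_of_dvd_mul_left h3'
  have := Nat.le_of_dvd hd0 h4
  omega

theorem sin_beta_ne {p t d : ℕ} {W : ℤ} {β : ℝ} (hWt : IsCoprime W t) (hWp : IsCoprime W p)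
    (hβ : β * W = t * p) (hd0 : 0 < d) (hd : d < W) :
    Real.sin (Real.pi * (d * β)) ≠ 0 := by
  intro h
  rw [Real.sin_eq_zero_iff] at h
  obtain ⟨n, hn⟩ := h
  have hpi := Real.pi_pos
  have h1 : (n : ℝ) = d * β := by
    have : Real.pi * n = Real.pi * (d * β) := by linarith
    exact mul_left_cancel₀ hpi.ne' this
  have h2 : (t * p : ℝ) * d = W * n := by
    rw [h1, ← hβ]
    ring
  have h2' : (t * p : ℤ) * d = W * n := by exact_mod_cast h2
  have h3 : W ∣ (t * p) * d := ⟨_, h2'⟩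
  have h4 : W ∣ d := (hWt.mul_right hWp).dvd_of_dvd_mul_left h3
  have := Int.le_of_dvd (by exact_mod_cast hd0) h4
  omega

end Pool.Agent.H239.TR
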