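import Mathlib

/-!
# The twisted recurrence along an orbit: basic definitions
-/

namespace Pool.Agent.H239.TR

open Filter Topology

/-- `e(t) = exp(2πit)` -/
noncomputable def e (t : ℝ) : ℂ := Complex.exp (2 * Real.pi * t * Complex.I)

/-- the functional equation `f(x+1)(1+e(αx)) = f(x)(1+e(βx))` for all `x` in the orbit
`x₀ + ℤ` -/
def Holds (α β x0 : ℝ) (f : ℝ → ℂ) : Prop :=
  ∀ N : ℤ, f (x0 + N + 1) * (1 + e (α * (x0 + N))) = f (x0 + N) * (1 + e (β * (x0 + N)))

/-- `|1 + e(t)| = 2 |cos πt|` -/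
theorem norm_one_add_e (t : ℝ) : ‖1 + e t‖ = 2 * |Real.cos (Real.pi * t)| := by
  have h : 1 + e t = Complex.exp ((Real.pi * t : ℝ) * Complex.I) *
      ((2 * Real.cos (Real.pi * t) : ℝ) : ℂ) := by
    have h2 : ((2 * Real.cos (Real.pi * t) : ℝ) : ℂ) =
        Complex.exp ((Real.pi * t : ℝ) * Complex.I) +
          Complex.exp (-((Real.pi * t : ℝ) * Complex.I)) := by
      push_cast
      rw [Complex.cos]
      ring_nf
    rw [h2, mul_add, ← Complex.exp_add, ← Complex.exp_add]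
    unfold e
    rw [add_neg_cancel, Complex.exp_zero, add_comm]
    congr 2
    push_cast
    ring
  rw [h, norm_mul, Complex.norm_exp_ofReal_mul_I, one_mul, Complex.norm_real, Real.norm_eq_abs,
    abs_mul, abs_two]

theorem one_add_e_ne_zero {t : ℝ} (h : Real.cos (Real.pi * t) ≠ 0) : 1 + e t ≠ 0 := by
  rw [← norm_ne_zero_iff, norm_one_add_e]
  have := abs_pos.2 h
  positivity

/-- the modulus `|cos πt|` -/
noncomputable def cc (t : ℝ) : ℝ := |Real.cos (Real.pi * t)|

theorem cc_nonneg (t : ℝ) : 0 ≤ cc t := abs_nonneg _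

theorem cc_neg (t : ℝ) : cc (-t) = cc t := by
  unfold cc
  rw [mul_neg, Real.cos_neg]

theorem continuous_cc : Continuous cc := by
  unfold cc
  fun_prop

theorem norm_eq_cc (t : ℝ) : ‖1 + e t‖ = 2 * cc t := norm_one_add_e t

/-- `cc t = 0` iff `t` is a half-integer -/
theorem cc_eq_zero_iff {t : ℝ} : cc t = 0 ↔ ∃ k : ℤ, 2 * t = 2 * k + 1 := by
  unfold cc
  rw [abs_eq_zero, Real.cos_eq_zero_iff]
  constructor
  · rintro ⟨k, hk⟩
    refine ⟨k, ?_⟩
    have hpi := Real.pi_pos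
    have : Real.pi * (2 * t) = Real.pi * (2 * k + 1) := by linarith
    exact mul_left_cancel₀ hpi.ne' this
  · rintro ⟨k, hk⟩
    refine ⟨k, ?_⟩
    have : t = (2 * k + 1) / 2 := by linarith
    rw [this]
    ring

end Pool.Agent.H239.TR
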