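import Pool.Agent.H239.TR.StepOne

/-!
# The limit of the construction
-/

namespace Pool.Agent.H239.TR

open Filter Topology

/-- nested neighbourhoods -/
theorem nested {X : Type*} [MetricSpace X] [ProperSpace X] {S : Type*} (pt : S → X)
    (P : ℕ → S → S → X → Prop)
    (hstep : ∀ (n : ℕ) (σ : S) (U : Set X), U ∈ 𝓝 (pt σ) →
      ∃ σ' : S, pt σ' ∈ U ∧ ∀ᶠ y in 𝓝 (pt σ'), P n σ σ' y)
    (σ0 : S) {U0 : Set X} (hU0 : U0 ∈ 𝓝 (pt σ0)) :
    ∃ (σ : ℕ → S) (y : X), σ 0 = σ0 ∧ y ∈ U0 ∧ ∀ n, P n (σ n) (σ (n + 1)) y := by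
  obtain ⟨r0, hr0, hb0⟩ := Metric.nhds_basis_closedBall.mem_iff.1 hU0
  have hstep' : ∀ (n : ℕ) (z : {z : S × ℝ // 0 < z.2}), ∃ z' : {z : S × ℝ // 0 < z.2},
      Metric.closedBall (pt z'.1.1) z'.1.2 ⊆ Metric.closedBall (pt z.1.1) z.1.2 ∧
      ∀ y ∈ Metric.closedBall (pt z'.1.1) z'.1.2, P n z.1.1 z'.1.1 y := by
    rintro n ⟨⟨σ, r⟩, hr⟩
    obtain ⟨σ', h1, h2⟩ := hstep n σ (Metric.ball (pt σ) r) (Metric.ball_mem_nhds _ hr)
    have h3 : Metric.ball (pt σ) r ∩ {y | P n σ σ' y} ∈ 𝓝 (pt σ') :=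
      Filter.inter_mem (Metric.isOpen_ball.mem_nhds h1) h2
    obtain ⟨r', hr', hb'⟩ := Metric.nhds_basis_closedBall.mem_iff.1 h3
    refine ⟨⟨(σ', r'), hr'⟩, ?_, ?_⟩
    · exact (hb'.trans Set.inter_subset_left).trans Metric.ball_subset_closedBall
    · intro y hy
      exact (hb' hy).2
  choose nxt hn1 hn2 using hstep'
  let z : ℕ → {z : S × ℝ // 0 < z.2} := fun n => Nat.rec ⟨(σ0, r0), hr0⟩ (fun n z => nxt n z) n
  have hz0 : z 0 = ⟨(σ0, r0), hr0⟩ := rfl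
  have hzs : ∀ n, z (n + 1) = nxt n (z n) := fun n => rfl
  have hne : (⋂ n, Metric.closedBall (pt (z n).1.1) (z n).1.2).Nonempty := by
    apply IsCompact.nonempty_iInter_of_sequence_nonempty_isCompact_isClosed
    · intro n
      rw [hzs]
      exact hn1 n (z n)
    · intro n
      exact ⟨pt (z n).1.1, Metric.mem_closedBall_self (z n).2.le⟩
    · exact isCompact_closedBall _ _
    · intro n
      exact Metric.isClosed_closedBall
  obtain ⟨y, hy⟩ := hne
  rw [Set.mem_iInter] at hy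
  refine ⟨fun n => (z n).1.1, y, ?_, ?_, ?_⟩
  · rfl
  · apply hb0
    have := hy 0
    rw [hz0] at this
    exact this
  · intro n
    have h1 := hy (n + 1)
    rw [hzs] at h1
    exact hn2 n (z n) y h1

/-- the two-sided limit: smallness of `F` for large `m` -/
theorem small_of_steps {A : ℕ → ℕ} {y : ℝ × ℝ × ℝ} (hA : ∀ n, A n + n ≤ A (n + 1))
    (hs : ∀ n m, A n < m → m ≤ A (n + 1) + 1 → F y m < 1 / ((n : ℝ) + 1)) (n : ℕ) :
    ∀ m, A n < m → F y m < 1 / ((n : ℝ) + 1) := by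
  have hmono : ∀ k, A k ≤ A (k + 1) := fun k => by
    have := hA k
    omega
  have hgrow : ∀ k, k ≤ A (k + 1) := fun k => by
    have := hA k
    omega
  have key : ∀ k, n ≤ k → ∀ m, A n < m → m ≤ A k + 1 → F y m < 1 / ((n : ℝ) + 1) := by
    intro k hk
    induction k, hk using Nat.le_induction with
    | base =>
      intro m h1 h2
      exact hs n m h1 (by have := hmono n; omega)
    | succ k hk ih =>
      intro m h1 h2
      by_cases h3 : m ≤ A k
      · exact ih m h1 (by omega)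
      · have h4 := hs k m (by omega) h2
        refine h4.trans_le ?_
        apply one_div_le_one_div_of_le (by positivity)
        have : (n : ℝ) ≤ k := by exact_mod_cast hk
        linarith
  intro m hm
  rcases le_total n (m + 1) with h | h
  · exact key (m + 1 + 1) (by omega) m hm (by have := hgrow (m + 1); omega)
  · exact key (n + 1) (by omega) m hm (by have := hgrow n; omega)

theorem F_nonneg (y : ℝ × ℝ × ℝ) (m : ℕ) : 0 ≤ F y m :=
  Finset.prod_nonneg fun _ _ => div_nonneg (cc_nonneg _) (cc_nonneg _)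

theorem tendsto_F {A : ℕ → ℕ} {y : ℝ × ℝ × ℝ} (hA : ∀ n, A n + n ≤ A (n + 1))
    (hs : ∀ n m, A n < m → m ≤ A (n + 1) + 1 → F y m < 1 / ((n : ℝ) + 1)) :
    Tendsto (fun m => F y m) atTop (𝓝 0) := by
  rw [Metric.tendsto_atTop]
  intro ε hε
  obtain ⟨n, hn⟩ := exists_nat_one_div_lt hε
  refine ⟨A n + 1, fun m hm => ?_⟩
  rw [Real.dist_eq, sub_zero, abs_of_nonneg (F_nonneg y m)]
  exact (small_of_steps hA hs n m (by omega)).trans hn

/-! ## Initial states -/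

theorem exists_odd_near (y : ℝ) (hy : 0 ≤ y) : ∃ s : ℕ, Odd s ∧ |(s : ℝ) - y| ≤ 1 := by
  refine ⟨2 * ⌊y / 2⌋₊ + 1, ⟨_, rfl⟩, ?_⟩
  have h1 : (⌊y / 2⌋₊ : ℝ) ≤ y / 2 := Nat.floor_le (by positivity)
  have h2 : y / 2 < ⌊y / 2⌋₊ + 1 := Nat.lt_floor_add_one _
  rw [abs_le]
  push_cast
  constructor <;> linarith

theorem exists_state {a b : ℝ} (ha : 0 < a) (hb : 0 < b) {ε : ℝ} (hε : 0 < ε) :
    ∃ σ : St, |σ.α - a| < ε ∧ |σ.β - b| < ε := by
  obtain ⟨k, hk⟩ := exists_nat_gt (1 / ε + 2 / a + 2 / b + 2)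
  have h1ε : 0 < 1 / ε := by positivity
  have h2a : 0 < 2 / a := by positivity
  have h2b : 0 < 2 / b := by positivity
  have hk2 : (k : ℝ) < (2 : ℝ) ^ k := by exact_mod_cast Nat.lt_two_pow_self
  set L : ℕ := 2 ^ k with hL
  have hLR : (L : ℝ) = 2 ^ k := by
    rw [hL]
    push_cast
    rfl
  have hLk : (k : ℝ) < L := by rwa [hLR]
  have hL1 : 1 / ε < L := by linarith
  have hL2 : 2 / a < L := by linarith
  have hL3 : 2 / b < L := by linarith
  have hL4 : (2 : ℝ) < L := by linarith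
  rw [div_lt_iff₀ hε] at hL1
  rw [div_lt_iff₀ ha] at hL2
  rw [div_lt_iff₀ hb] at hL3
  have hLpos : 0 < L := by
    rw [hL]
    positivity
  obtain ⟨s, hs, hs'⟩ := exists_odd_near (a * (2 * L - 1)) (by
    have : (0 : ℝ) ≤ 2 * L - 1 := by linarith
    positivity)
  obtain ⟨t, ht, ht'⟩ := exists_odd_near (b * (2 * L + 1)) (by positivity)
  rw [abs_le] at hs' ht'
  have p1 : (0 : ℝ) < 2 * L - 1 := by linarith
  have p2 : (0 : ℝ) < 2 * L + 1 := by linarith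
  have hcast : ((L - 1 : ℕ) : ℝ) = (L : ℝ) - 1 := by
    rw [Nat.cast_sub hLpos]
    simp
  refine ⟨
    { A := L - 1
      b := L
      s := s
      t := t
      α := s / (2 * L - 1)
      β := t / (2 * L + 1)
      x := 1 / 2
      hs := hs
      ht := ht
      hg := ?_
      hx0 := by norm_num
      hx1 := by norm_num
      hα := ?_
      hβ := ?_
      m1 := ?_
      m2 := ?_ }, ?_, ?_⟩
  · intro l hl h1 _ h3
    have e1 : L - 1 + 1 + L = 2 ^ (k + 1) := by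
      rw [pow_succ, ← hL]
      omega
    rw [e1] at h3
    have h4 := (Nat.prime_dvd_prime_iff_eq hl Nat.prime_two).1 (hl.dvd_of_dvd_pow h3)
    subst h4
    exact (Nat.not_even_iff_odd.2 hs) (even_iff_two_dvd.2 h1)
  · rw [hcast]
    field_simp
    ring
  · field_simp
  · have : (s : ℝ) / (2 * L - 1) * (L + 1 / 2) = s * (L + 1 / 2) / (2 * L - 1) := by ring
    rw [this, lt_div_iff₀ p1]
    nlinarith
  · rw [hcast]
    have : (t : ℝ) / (2 * L + 1) * (L - 1 + 1 - 1 / 2) = t * (L - 1 / 2) / (2 * L + 1) := by ring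
    rw [this, lt_div_iff₀ p2]
    nlinarith
  · change |(s : ℝ) / (2 * L - 1) - a| < ε
    have : (s : ℝ) / (2 * L - 1) - a = (s - a * (2 * L - 1)) / (2 * L - 1) := by
      field_simp
    rw [this, abs_div, abs_of_pos p1, div_lt_iff₀ p1]
    rw [abs_lt]
    constructor <;> nlinarith
  · change |(t : ℝ) / (2 * L + 1) - b| < ε
    have : (t : ℝ) / (2 * L + 1) - b = (t - b * (2 * L + 1)) / (2 * L + 1) := by
      field_simp
    rw [this, abs_div, abs_of_pos p2, div_lt_iff₀ p2]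
    rw [abs_lt]
    constructor <;> nlinarith

/-- density of the parameters for which both one-sided products tend to zero -/
theorem exists_param {a b : ℝ} (ha : 0 < a) (hb : 0 < b) {ε : ℝ} (hε : 0 < ε) :
    ∃ α β x : ℝ, |α - a| < ε ∧ |β - b| < ε ∧ 0 < x ∧ x < 1 ∧ Irrational α ∧ Irrational β ∧
      (∀ j : ℕ, cc (α * (j + x)) ≠ 0) ∧ (∀ j : ℕ, cc (β * (j + x)) ≠ 0) ∧
      (∀ j : ℕ, cc (α * (j + 1 - x)) ≠ 0) ∧ (∀ j : ℕ, cc (β * (j + 1 - x)) ≠ 0) ∧
      Tendsto (fun m => F (α, β, x) m) atTop (𝓝 0) ∧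
      Tendsto (fun m => F (β, α, 1 - x) m) atTop (𝓝 0) := by
  obtain ⟨σ0, hσ1, hσ2⟩ := exists_state ha hb hε
  have hU0 : {y : ℝ × ℝ × ℝ | |y.1 - a| < ε ∧ |y.2.1 - b| < ε ∧ 0 < y.2.2 ∧ y.2.2 < 1} ∈
      𝓝 σ0.pt := by
    have c1 : Continuous fun y : ℝ × ℝ × ℝ => |y.1 - a| := by fun_prop
    have c2 : Continuous fun y : ℝ × ℝ × ℝ => |y.2.1 - b| := by fun_prop
    have c3 : Continuous fun y : ℝ × ℝ × ℝ => y.2.2 := by fun_prop
    have d1 := (c1.tendsto σ0.pt).eventually (gt_mem_nhds hσ1)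
    have d2 := (c2.tendsto σ0.pt).eventually (gt_mem_nhds hσ2)
    have d3 := (c3.tendsto σ0.pt).eventually (lt_mem_nhds σ0.hx0)
    have d4 := (c3.tendsto σ0.pt).eventually (gt_mem_nhds σ0.hx1)
    filter_upwards [d1, d2, d3, d4] with y h1 h2 h3 h4
    exact ⟨h1, h2, h3, h4⟩
  obtain ⟨σ, y, -, hy0, hP⟩ := nested St.pt
    (fun n σ σ' y => σ.A + n ≤ σ'.A ∧ σ.b + n ≤ σ'.b ∧
      Good σ.A σ'.A σ.b n (1 / ((n : ℝ) + 1)) y ∧
      Good σ.b σ'.b σ'.A n (1 / ((n : ℝ) + 1)) (rho y))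
    (by
      intro n σ U hU
      obtain ⟨σ', h1, h2, h3, h4⟩ := step σ hU n (ε := 1 / ((n : ℝ) + 1)) (by positivity)
      refine ⟨σ', h3, ?_⟩
      filter_upwards [h4] with y hy
      exact ⟨h1, h2, hy.1, hy.2⟩) σ0 hU0
  obtain ⟨α, β, x⟩ := y
  obtain ⟨y1, y2, y3, y4⟩ := hy0
  have gA : ∀ n, n ≤ (σ (n + 1)).A := fun n => by
    have := (hP n).1
    omega
  have gb : ∀ n, n ≤ (σ (n + 1)).b := fun n => by
    have := (hP n).2.1
    omega
  refine ⟨α, β, x, y1, y2, y3, y4, ?_, ?_, ?_, ?_, ?_, ?_, ?_, ?_⟩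
  · rintro ⟨c, hc⟩
    have h1 := (hP c.den).2.2.1.irr1 c.den c.pos le_rfl
    apply h1
    rw [Real.sin_eq_zero_iff]
    refine ⟨c.num, ?_⟩
    change (c.num : ℝ) * Real.pi = Real.pi * (c.den * α)
    rw [← hc]
    have : (c.den : ℝ) * (c : ℝ) = c.num := by
      exact_mod_cast Rat.den_mul_eq_num c
    rw [this]
    ring
  · rintro ⟨c, hc⟩
    have h1 := (hP c.den).2.2.1.irr2 c.den c.pos le_rfl
    apply h1
    rw [Real.sin_eq_zero_iff]
    refine ⟨c.num, ?_⟩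
    change (c.num : ℝ) * Real.pi = Real.pi * (c.den * β)
    rw [← hc]
    have : (c.den : ℝ) * (c : ℝ) = c.num := by
      exact_mod_cast Rat.den_mul_eq_num c
    rw [this]
    ring
  · intro j
    exact (hP (j + 1 + 1)).2.2.1.nz3 j (by have := gb (j + 1); omega)
  · intro j
    exact (hP (j + 1 + 1)).2.2.1.nz4 j (by have := gb (j + 1); omega)
  · intro j
    exact (hP (j + 1 + 1)).2.2.1.nz1 j (by have := gA (j + 1); omega)
  · intro j
    exact (hP (j + 1 + 1)).2.2.1.nz2 j (by have := gA (j + 1); omega)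
  · exact tendsto_F (A := fun n => (σ n).A) (fun n => (hP n).1)
      (fun n m h1 h2 => (hP n).2.2.1.small m h1 h2)
  · exact tendsto_F (A := fun n => (σ n).b) (fun n => (hP n).2.1)
      (fun n m h1 h2 => (hP n).2.2.2.small m h1 h2)

end Pool.Agent.H239.TR
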