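import Pool.Agent.H239.TR.Basic

/-!
# For a residual set of pairs no nontrivial solution decays
-/

namespace Pool.Agent.H239.TR

open Filter Topology

theorem telescope_fwd {α β x0 : ℝ} {f : ℝ → ℂ} (h : Holds α β x0 f) (N : ℤ) (Q : ℕ) :
    f (x0 + ((N + Q : ℤ) : ℝ)) * ∏ j ∈ Finset.range Q, (1 + e (α * (x0 + N + j))) =
      f (x0 + N) * ∏ j ∈ Finset.range Q, (1 + e (β * (x0 + N + j))) := by
  induction Q with
  | zero => simp
  | succ Q ih =>
    rw [Finset.prod_range_succ, Finset.prod_range_succ]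
    have h1 := h (N + Q)
    have e1 : x0 + ((N + (Q + 1 : ℕ) : ℤ) : ℝ) = x0 + ((N + Q : ℤ) : ℝ) + 1 := by
      push_cast
      ring
    have e2 : x0 + N + Q = x0 + ((N + Q : ℤ) : ℝ) := by
      push_cast
      ring
    rw [e1, e2]
    linear_combination
      (∏ j ∈ Finset.range Q, (1 + e (α * (x0 + N + j)))) * h1 +
        (1 + e (β * (x0 + ((N + Q : ℤ) : ℝ)))) * ih

theorem telescope_bwd {α β x0 : ℝ} {f : ℝ → ℂ} (h : Holds α β x0 f) (N : ℤ) (Q : ℕ) :
    f (x0 + N) * ∏ j ∈ Finset.range Q, (1 + e (α * (x0 + N - (j + 1)))) =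
      f (x0 + ((N - Q : ℤ) : ℝ)) * ∏ j ∈ Finset.range Q, (1 + e (β * (x0 + N - (j + 1)))) := by
  induction Q with
  | zero => simp
  | succ Q ih =>
    rw [Finset.prod_range_succ, Finset.prod_range_succ]
    have h1 := h (N - (Q + 1 : ℕ))
    have e1 : x0 + ((N - (Q + 1 : ℕ) : ℤ) : ℝ) + 1 = x0 + ((N - Q : ℤ) : ℝ) := by
      push_cast
      ring
    have e2 : x0 + N - (Q + 1) = x0 + ((N - (Q + 1 : ℕ) : ℤ) : ℝ) := by
      push_cast
      ring
    rw [e1] at h1
    rw [e2]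
    linear_combination
      (1 + e (α * (x0 + ((N - (Q + 1 : ℕ) : ℤ) : ℝ)))) * ih +
        (∏ j ∈ Finset.range Q, (1 + e (β * (x0 + N - (j + 1))))) * h1

/-- forward product of `|cos πα(y+j)|` -/
noncomputable def fw (α y : ℝ) (Q : ℕ) : ℝ := ∏ j ∈ Finset.range Q, cc (α * (y + j))

/-- backward product -/
noncomputable def bw (α y : ℝ) (Q : ℕ) : ℝ := ∏ j ∈ Finset.range Q, cc (α * (y - (j + 1)))

theorem norm_prod_fw (α y : ℝ) (Q : ℕ) :
    ‖∏ j ∈ Finset.range Q, (1 + e (α * (y + j)))‖ = 2 ^ Q * fw α y Q := by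
  rw [norm_prod, fw]
  rw [Finset.prod_congr rfl (fun j _ => norm_eq_cc _), Finset.prod_mul_distrib]
  simp

theorem norm_prod_bw (α y : ℝ) (Q : ℕ) :
    ‖∏ j ∈ Finset.range Q, (1 + e (α * (y - (j + 1))))‖ = 2 ^ Q * bw α y Q := by
  rw [norm_prod, bw]
  rw [Finset.prod_congr rfl (fun j _ => norm_eq_cc _), Finset.prod_mul_distrib]
  simp

theorem fw_nonneg (α y : ℝ) (Q : ℕ) : 0 ≤ fw α y Q := Finset.prod_nonneg fun _ _ => cc_nonneg _

theorem bw_nonneg (α y : ℝ) (Q : ℕ) : 0 ≤ bw α y Q := Finset.prod_nonneg fun _ _ => cc_nonneg _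

/-- the obstruction at the point `y` with period `Q` -/
def Obs (Q : ℕ) (α β y : ℝ) : Prop := fw α y Q < 10 * fw β y Q ∨ bw β y Q < 10 * bw α y Q

theorem eventually_not_obs {α β x0 : ℝ} {f : ℝ → ℂ} (h : Holds α β x0 f)
    (hlim : Tendsto (fun N : ℤ => f (x0 + N)) cofinite (𝓝 0)) (N : ℤ) (hN : f (x0 + N) ≠ 0) :
    ∀ᶠ Q : ℕ in atTop, ¬ Obs Q α β (x0 + N) := by
  have hG : 0 < ‖f (x0 + N)‖ := norm_pos_iff.2 hN
  set G := ‖f (x0 + N)‖ with hGdef
  have hlim' : Tendsto (fun N : ℤ => ‖f (x0 + N)‖) cofinite (𝓝 0) := by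
    simpa using hlim.norm
  have hev : ∀ᶠ M : ℤ in cofinite, ‖f (x0 + M)‖ < G / 10 :=
    hlim'.eventually (gt_mem_nhds (by positivity))
  have t1 : Tendsto (fun Q : ℕ => N + (Q : ℤ)) atTop cofinite := by
    rw [← Nat.cofinite_eq_atTop]
    exact Function.Injective.tendsto_cofinite (fun a b hab => by simpa using hab)
  have t2 : Tendsto (fun Q : ℕ => N - (Q : ℤ)) atTop cofinite := by
    rw [← Nat.cofinite_eq_atTop]
    exact Function.Injective.tendsto_cofinite (fun a b hab => by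
      have : N - (a : ℤ) = N - (b : ℤ) := hab
      omega)
  filter_upwards [t1.eventually hev, t2.eventually hev] with Q h1 h2
  have h2Q : (0 : ℝ) < 2 ^ Q := by positivity
  have i1 := congrArg norm (telescope_fwd h N Q)
  have i2 := congrArg norm (telescope_bwd h N Q)
  rw [norm_mul, norm_mul, norm_prod_fw, norm_prod_fw] at i1
  rw [norm_mul, norm_mul, norm_prod_bw, norm_prod_bw] at i2
  have j1 : ‖f (x0 + ((N + Q : ℤ) : ℝ))‖ * fw α (x0 + N) Q = G * fw β (x0 + N) Q := by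
    have : (2 : ℝ) ^ Q * (‖f (x0 + ((N + Q : ℤ) : ℝ))‖ * fw α (x0 + N) Q) =
        2 ^ Q * (G * fw β (x0 + N) Q) := by
      linear_combination i1
    exact mul_left_cancel₀ h2Q.ne' this
  have j2 : G * bw α (x0 + N) Q = ‖f (x0 + ((N - Q : ℤ) : ℝ))‖ * bw β (x0 + N) Q := by
    have : (2 : ℝ) ^ Q * (G * bw α (x0 + N) Q) =
        2 ^ Q * (‖f (x0 + ((N - Q : ℤ) : ℝ))‖ * bw β (x0 + N) Q) := by
      linear_combination i2
    exact mul_left_cancel₀ h2Q.ne' this
  have a1 := fw_nonneg α (x0 + N) Q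
  have a2 := bw_nonneg β (x0 + N) Q
  rintro (h3 | h3)
  · have k1 : ‖f (x0 + ((N + Q : ℤ) : ℝ))‖ * fw α (x0 + N) Q ≤ G / 10 * fw α (x0 + N) Q :=
      mul_le_mul_of_nonneg_right h1.le a1
    have k2 : G * fw α (x0 + N) Q < G * (10 * fw β (x0 + N) Q) := mul_lt_mul_of_pos_left h3 hG
    linarith
  · have k1 : ‖f (x0 + ((N - Q : ℤ) : ℝ))‖ * bw β (x0 + N) Q ≤ G / 10 * bw β (x0 + N) Q :=
      mul_le_mul_of_nonneg_right h2.le a2
    have k2 : G * bw β (x0 + N) Q < G * (10 * bw α (x0 + N) Q) := mul_lt_mul_of_pos_left h3 hG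
    linarith

/-! ## Periodicity and the centres -/

theorem cc_sub_int (t : ℝ) (k : ℤ) : cc (t - k) = cc t := by
  unfold cc
  have : Real.pi * (t - k) = Real.pi * t - k * Real.pi := by ring
  rw [this, Real.cos_sub_int_mul_pi, abs_mul]
  simp

theorem fw_eq_bw {α : ℝ} (y : ℝ) {Q : ℕ} {k : ℤ} (hk : α * Q = k) : fw α y Q = bw α y Q := by
  unfold fw bw
  rw [← Finset.prod_range_reflect]
  refine Finset.prod_congr rfl fun j hj => ?_
  have hj' := Finset.mem_range.1 hj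
  have h1 : ((Q - 1 - j : ℕ) : ℝ) = (Q : ℝ) - 1 - j := by
    rw [Nat.cast_sub (by omega), Nat.cast_sub (by omega)]
    simp
  rw [h1]
  have h2 : α * (y - ((j : ℝ) + 1)) = α * (y + ((Q : ℝ) - 1 - j)) - k := by
    rw [← hk]
    ring
  rw [h2, cc_sub_int]

theorem obs_center (p r : ℤ) (q : ℕ) (hp : Odd p) (hq : Odd q) (y : ℝ) :
    Obs (2 * q) ((p : ℝ) / (2 * q)) ((r : ℝ) / q) y := by
  have hq0 : (q : ℝ) ≠ 0 := by
    have : q ≠ 0 := by
      rintro rfl
      simp at hq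
    exact_mod_cast this
  by_contra hcon
  unfold Obs at hcon
  push Not at hcon
  obtain ⟨h1, h2⟩ := hcon
  have e1 : fw ((p : ℝ) / (2 * q)) y (2 * q) = bw ((p : ℝ) / (2 * q)) y (2 * q) :=
    fw_eq_bw (k := p) y (by push_cast; field_simp)
  have e2 : fw ((r : ℝ) / q) y (2 * q) = bw ((r : ℝ) / q) y (2 * q) :=
    fw_eq_bw (k := 2 * r) y (by push_cast; field_simp)
  rw [← e1, ← e2] at h2
  have n1 := fw_nonneg ((p : ℝ) / (2 * q)) y (2 * q)
  have n2 := fw_nonneg ((r : ℝ) / q) y (2 * q)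
  have z1 : fw ((p : ℝ) / (2 * q)) y (2 * q) = 0 := by linarith
  have z2 : fw ((r : ℝ) / q) y (2 * q) = 0 := by linarith
  unfold fw at z1 z2
  rw [Finset.prod_eq_zero_iff] at z1 z2
  obtain ⟨i, -, hi⟩ := z1
  obtain ⟨j, -, hj⟩ := z2
  rw [cc_eq_zero_iff] at hi hj
  obtain ⟨k, hk⟩ := hi
  obtain ⟨l, hl⟩ := hj
  have hk' : (p : ℝ) * (y + i) = q * (2 * k + 1) := by
    field_simp at hk
    linarith
  have hl' : 2 * (r : ℝ) * (y + j) = q * (2 * l + 1) := by
    field_simp at hl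
    linarith
  have key : (2 * p * r * (j - i) : ℝ) = p * (q * (2 * l + 1)) - 2 * r * (q * (2 * k + 1)) := by
    rw [← hk', ← hl']
    ring
  have key' : (2 * p * r * (j - i) : ℤ) = p * (q * (2 * l + 1)) - 2 * r * (q * (2 * k + 1)) := by
    exact_mod_cast key
  have hodd : Odd (p * ((q : ℤ) * (2 * l + 1))) := by
    apply hp.mul
    apply Odd.mul
    · exact_mod_cast hq
    · exact ⟨l, rfl⟩
  have heven : Even (p * ((q : ℤ) * (2 * l + 1))) := by
    have : p * ((q : ℤ) * (2 * l + 1)) =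
        2 * (p * r * (j - i) + r * (q * (2 * k + 1))) := by linarith
    rw [this]
    exact even_two_mul _
  exact (Int.not_even_iff_odd.2 hodd) heven

theorem continuous_fw {X : Type*} [TopologicalSpace X] {u v : X → ℝ} (hu : Continuous u)
    (hv : Continuous v) (Q : ℕ) : Continuous fun z => fw (u z) (v z) Q := by
  unfold fw
  refine continuous_finsetProd _ fun j _ => ?_
  have h : Continuous fun z => u z * (v z + j) := by fun_prop
  exact continuous_cc.comp h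

theorem continuous_bw {X : Type*} [TopologicalSpace X] {u v : X → ℝ} (hu : Continuous u)
    (hv : Continuous v) (Q : ℕ) : Continuous fun z => bw (u z) (v z) Q := by
  unfold bw
  refine continuous_finsetProd _ fun j _ => ?_
  have h : Continuous fun z => u z * (v z - (j + 1)) := by fun_prop
  exact continuous_cc.comp h

theorem obs_nhds {Q : ℕ} {c : ℝ × ℝ} (hc : ∀ y, Obs Q c.1 c.2 y) (R : ℝ) :
    ∀ᶠ p : ℝ × ℝ in 𝓝 c, ∀ y ∈ Set.Icc (-R) R, Obs Q p.1 p.2 y := by
  have hK : IsCompact (Set.Icc (-R) R) := isCompact_Icc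
  refine hK.eventually_forall_of_forall_eventually
    (P := fun (p : ℝ × ℝ) (y : ℝ) => Obs Q p.1 p.2 y) ?_
  intro y _
  have hu : Continuous fun z : (ℝ × ℝ) × ℝ => z.1.1 := by fun_prop
  have hu' : Continuous fun z : (ℝ × ℝ) × ℝ => z.1.2 := by fun_prop
  have hv : Continuous fun z : (ℝ × ℝ) × ℝ => z.2 := by fun_prop
  have d1 := continuous_fw hu hv Q
  have d2 := continuous_fw hu' hv Q
  have d3 := continuous_bw hu hv Q
  have d4 := continuous_bw hu' hv Q
  rcases hc y with h | h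
  · have := (d1.tendsto (c, y)).eventually_lt ((d2.const_mul 10).tendsto (c, y)) h
    filter_upwards [this] with z hz
    exact Or.inl hz
  · have := (d4.tendsto (c, y)).eventually_lt ((d3.const_mul 10).tendsto (c, y)) h
    filter_upwards [this] with z hz
    exact Or.inr hz

theorem exists_center (a b : ℝ) {ε : ℝ} (hε : 0 < ε) (K : ℕ) :
    ∃ (p r : ℤ) (q : ℕ), Odd p ∧ Odd q ∧ K ≤ 2 * q ∧ |(p : ℝ) / (2 * q) - a| < ε ∧
      |(r : ℝ) / q - b| < ε := by
  obtain ⟨n, hn⟩ := exists_nat_gt (1 / ε + K)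
  have hK : (K : ℝ) < n := by
    have : 0 < 1 / ε := by positivity
    linarith
  have hK' : K < n := by exact_mod_cast hK
  have hq : (0 : ℝ) < ((2 * n + 1 : ℕ) : ℝ) := by positivity
  have hqε : 1 < ((2 * n + 1 : ℕ) : ℝ) * ε := by
    have h1 : 1 / ε < n := by
      have : (0 : ℝ) ≤ K := by positivity
      linarith
    rw [div_lt_iff₀ hε] at h1
    push_cast
    nlinarith
  refine ⟨2 * ⌊a * (2 * n + 1 : ℕ)⌋ + 1, ⌊b * (2 * n + 1 : ℕ)⌋, 2 * n + 1, ⟨_, rfl⟩, ⟨_, rfl⟩,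
    by omega, ?_, ?_⟩
  · have f1 := Int.floor_le (a * (2 * n + 1 : ℕ))
    have f2 := Int.lt_floor_add_one (a * (2 * n + 1 : ℕ))
    set q : ℝ := ((2 * n + 1 : ℕ) : ℝ) with hqdef
    set fl : ℝ := ((⌊a * q⌋ : ℤ) : ℝ) with hfl
    have : (((2 * ⌊a * q⌋ + 1 : ℤ)) : ℝ) / (2 * q) - a = (2 * fl + 1 - 2 * (a * q)) / (2 * q) := by
      push_cast
      rw [← hfl]
      field_simp
    rw [this, abs_div, abs_of_pos (by positivity : (0 : ℝ) < 2 * q), div_lt_iff₀ (by positivity)]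
    rw [abs_lt]
    constructor <;> nlinarith
  · have f1 := Int.floor_le (b * (2 * n + 1 : ℕ))
    have f2 := Int.lt_floor_add_one (b * (2 * n + 1 : ℕ))
    set q : ℝ := ((2 * n + 1 : ℕ) : ℝ) with hqdef
    set fl : ℝ := ((⌊b * q⌋ : ℤ) : ℝ) with hfl
    have : fl / q - b = (fl - b * q) / q := by
      field_simp
    rw [this, abs_div, abs_of_pos hq, div_lt_iff₀ hq]
    rw [abs_lt]
    constructor <;> nlinarith

/-- the set of pairs obstructed at some period `Q ≥ K` -/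
def OK (K : ℕ) : Set (ℝ × ℝ) :=
  {p | ∃ Q : ℕ, K ≤ Q ∧ ∀ y ∈ Set.Icc (-(Q : ℝ)) Q, Obs Q p.1 p.2 y}

theorem OK_residual (K : ℕ) : OK K ∈ residual (ℝ × ℝ) := by
  apply mem_of_superset (residual_of_dense_open (s := interior (OK K)) isOpen_interior _)
    interior_subset
  rw [dense_iff_inter_open]
  intro U hU hne
  obtain ⟨c, hc⟩ := hne
  obtain ⟨ε, hε, hball⟩ := Metric.isOpen_iff.1 hU c hc
  obtain ⟨p, r, q, hp, hq, hKq, h1, h2⟩ := exists_center c.1 c.2 hε K
  refine ⟨((p : ℝ) / (2 * q), (r : ℝ) / q), hball ?_, ?_⟩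
  · rw [Metric.mem_ball, Prod.dist_eq, Real.dist_eq, Real.dist_eq]
    exact max_lt h1 h2
  · rw [mem_interior_iff_mem_nhds]
    have := obs_nhds (Q := 2 * q) (c := ((p : ℝ) / (2 * q), (r : ℝ) / q))
      (fun y => obs_center p r q hp hq y) ((2 * q : ℕ) : ℝ)
    filter_upwards [this] with z hz
    exact ⟨2 * q, hKq, hz⟩

/-- A pair obstructed at arbitrarily large periods admits no nonzero decaying solution. -/
theorem no_solution {α β : ℝ} (h : ∀ K, (α, β) ∈ OK K) (x0 : ℝ) (f : ℝ → ℂ)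
    (hf : Holds α β x0 f) (hlim : Tendsto (fun N : ℤ => f (x0 + N)) cofinite (𝓝 0)) (N : ℤ) :
    f (x0 + N) = 0 := by
  by_contra hN
  obtain ⟨K, hK⟩ := eventually_atTop.1 (eventually_not_obs hf hlim N hN)
  obtain ⟨R, hR⟩ := exists_nat_ge |x0 + N|
  obtain ⟨Q, hQ, hobs⟩ := h (max K R)
  refine hK Q (le_trans (le_max_left _ _) hQ) (hobs _ ?_)
  rw [Set.mem_Icc]
  have : |x0 + (N : ℝ)| ≤ Q := by
    refine hR.trans ?_
    exact_mod_cast le_trans (le_max_right _ _) hQ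
  exact abs_le.1 this

theorem residual_irrational_fst : ∀ᶠ p : ℝ × ℝ in residual (ℝ × ℝ), Irrational p.1 := by
  have : ∀ᶠ p : ℝ × ℝ in residual (ℝ × ℝ), ∀ q : ℚ, p.1 ≠ (q : ℝ) := by
    rw [eventually_countable_forall]
    intro q
    apply residual_of_dense_open
    · exact isOpen_ne_fun continuous_fst continuous_const
    · exact (dense_compl_singleton (q : ℝ)).preimage isOpenMap_fst
  filter_upwards [this] with p hp
  rintro ⟨q, hq⟩
  exact hp q hq.symm

theorem residual_irrational_snd : ∀ᶠ p : ℝ × ℝ in residual (ℝ × ℝ), Irrational p.2 := by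
  have : ∀ᶠ p : ℝ × ℝ in residual (ℝ × ℝ), ∀ q : ℚ, p.2 ≠ (q : ℝ) := by
    rw [eventually_countable_forall]
    intro q
    apply residual_of_dense_open
    · exact isOpen_ne_fun continuous_snd continuous_const
    · exact (dense_compl_singleton (q : ℝ)).preimage isOpenMap_snd
  filter_upwards [this] with p hp
  rintro ⟨q, hq⟩
  exact hp q hq.symm

theorem residual_ne : ∀ᶠ p : ℝ × ℝ in residual (ℝ × ℝ), p.1 ≠ p.2 := by
  apply residual_of_dense_open
  · exact isOpen_ne_fun continuous_fst continuous_snd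
  · rw [dense_iff_inter_open]
    intro U hU hne
    obtain ⟨c, hc⟩ := hne
    obtain ⟨ε, hε, hball⟩ := Metric.isOpen_iff.1 hU c hc
    by_cases h : c.1 = c.2
    · refine ⟨(c.1 + ε / 2, c.2), hball ?_, ?_⟩
      · rw [Metric.mem_ball, Prod.dist_eq, Real.dist_eq, Real.dist_eq]
        apply max_lt
        · rw [show c.1 + ε / 2 - c.1 = ε / 2 by ring, abs_of_pos (by positivity)]
          linarith
        · simpa using hε
      · change c.1 + ε / 2 ≠ c.2
        rw [h]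
        intro h3
        linarith
    · exact ⟨c, hc, h⟩

/-- For a residual set of pairs of distinct irrationals, every solution along every orbit that
decays vanishes identically on the orbit. -/
theorem residual_no : ∀ᶠ p : ℝ × ℝ in residual (ℝ × ℝ),
    Irrational p.1 ∧ Irrational p.2 ∧ p.1 ≠ p.2 ∧
      ∀ (x0 : ℝ) (f : ℝ → ℂ), Holds p.1 p.2 x0 f →
        Tendsto (fun N : ℤ => f (x0 + N)) cofinite (𝓝 0) → ∀ N : ℤ, f (x0 + N) = 0 := by
  have hall : ∀ᶠ p : ℝ × ℝ in residual (ℝ × ℝ), ∀ K, p ∈ OK K := by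
    rw [eventually_countable_forall]
    exact OK_residual
  filter_upwards [hall, residual_irrational_fst, residual_irrational_snd, residual_ne]
    with p hp h1 h2 h3
  exact ⟨h1, h2, h3, fun x0 f hf hlim N => no_solution hp x0 f hf hlim N⟩

end Pool.Agent.H239.TR
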