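import Pool.Agent.H239.TR.Limit

/-!
# From the parameters to a decaying solution
-/

namespace Pool.Agent.H239.TR

open Filter Topology

/-- the solution to the right -/
noncomputable def gP (α β x : ℝ) (n : ℕ) : ℂ :=
  ∏ j ∈ Finset.range n, ((1 + e (β * (x + j))) / (1 + e (α * (x + j))))

/-- the solution to the left -/
noncomputable def gN (α β x : ℝ) (m : ℕ) : ℂ :=
  ∏ j ∈ Finset.range m, ((1 + e (α * (x - (j + 1)))) / (1 + e (β * (x - (j + 1)))))

/-- the solution along the orbit as a function on `ℤ` -/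
noncomputable def gsol (α β x : ℝ) : ℤ → ℂ
  | Int.ofNat n => gP α β x n
  | Int.negSucc m => gN α β x (m + 1)

theorem one_add_e_ne {t : ℝ} (h : cc t ≠ 0) : 1 + e t ≠ 0 := by
  rw [← norm_ne_zero_iff, norm_eq_cc]
  exact mul_ne_zero two_ne_zero h

theorem gsol_rec {α β x : ℝ} (h1 : ∀ N : ℤ, cc (α * (x + N)) ≠ 0)
    (h2 : ∀ N : ℤ, cc (β * (x + N)) ≠ 0) (N : ℤ) :
    gsol α β x (N + 1) * (1 + e (α * (x + N))) = gsol α β x N * (1 + e (β * (x + N))) := by
  have u1 : ∀ N : ℤ, 1 + e (α * (x + N)) ≠ 0 := fun N => one_add_e_ne (h1 N)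
  have u2 : ∀ N : ℤ, 1 + e (β * (x + N)) ≠ 0 := fun N => one_add_e_ne (h2 N)
  rcases N with n | m
  · change gP α β x (n + 1) * _ = gP α β x n * _
    unfold gP
    rw [Finset.prod_range_succ]
    have := u1 (n : ℤ)
    simp only [Int.ofNat_eq_natCast, Int.cast_natCast] at this ⊢
    rw [mul_assoc, div_mul_cancel₀ _ this]
  · rcases m with _ | m
    · change gP α β x 0 * _ = gN α β x 1 * _
      unfold gP gN
      have a1 := u2 (Int.negSucc 0)
      have e2 : ((Int.negSucc 0 : ℤ) : ℝ) = -1 := by simp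
      rw [e2] at a1 ⊢
      have e3 : x - (((0 : ℕ) : ℝ) + 1) = x + -1 := by
        push_cast
        ring
      rw [Finset.prod_range_zero, Finset.prod_range_one, e3, one_mul, div_mul_cancel₀ _ a1]
    · change gN α β x (m + 1) * _ = gN α β x (m + 1 + 1) * _
      unfold gN
      rw [Finset.prod_range_succ _ (m + 1)]
      have a1 := u2 (Int.negSucc (m + 1))
      have e2 : x - (((m + 1 : ℕ) : ℝ) + 1) = x + ((Int.negSucc (m + 1) : ℤ) : ℝ) := by
        rw [Int.cast_negSucc]
        push_cast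
        ring
      rw [e2, mul_assoc (∏ j ∈ Finset.range (m + 1), _), div_mul_cancel₀ _ a1]

theorem gsol_ne_zero {α β x : ℝ} (h1 : ∀ N : ℤ, cc (α * (x + N)) ≠ 0)
    (h2 : ∀ N : ℤ, cc (β * (x + N)) ≠ 0) (N : ℤ) : gsol α β x N ≠ 0 := by
  rcases N with n | m
  · change gP α β x n ≠ 0
    unfold gP
    refine Finset.prod_ne_zero_iff.2 fun j _ => div_ne_zero ?_ ?_
    · have := one_add_e_ne (h2 (j : ℤ))
      simpa using this
    · have := one_add_e_ne (h1 (j : ℤ))
      simpa using this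
  · change gN α β x (m + 1) ≠ 0
    unfold gN
    refine Finset.prod_ne_zero_iff.2 fun j _ => div_ne_zero ?_ ?_
    · have := one_add_e_ne (h1 (-(j + 1) : ℤ))
      have e1 : x + ((-((j : ℤ) + 1) : ℤ) : ℝ) = x - (j + 1) := by
        push_cast
        ring
      rwa [e1] at this
    · have := one_add_e_ne (h2 (-(j + 1) : ℤ))
      have e1 : x + ((-((j : ℤ) + 1) : ℤ) : ℝ) = x - (j + 1) := by
        push_cast
        ring
      rwa [e1] at this

theorem norm_gsol_nat (α β x : ℝ) (n : ℕ) : ‖gsol α β x (Int.ofNat n)‖ = F (β, α, 1 - x) n := by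
  change ‖gP α β x n‖ = _
  unfold gP F
  rw [norm_prod]
  refine Finset.prod_congr rfl fun j _ => ?_
  rw [norm_div, norm_eq_cc, norm_eq_cc, mul_div_mul_left _ _ two_ne_zero]
  have e1 : (j : ℝ) + 1 - (1 - x) = x + j := by ring
  change _ = cc (β * ((j : ℝ) + 1 - (1 - x))) / cc (α * ((j : ℝ) + 1 - (1 - x)))
  rw [e1]

theorem norm_gsol_neg (α β x : ℝ) (m : ℕ) :
    ‖gsol α β x (Int.negSucc m)‖ = F (α, β, x) (m + 1) := by
  change ‖gN α β x (m + 1)‖ = _
  unfold gN F
  rw [norm_prod]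
  refine Finset.prod_congr rfl fun j _ => ?_
  rw [norm_div, norm_eq_cc, norm_eq_cc, mul_div_mul_left _ _ two_ne_zero]
  change _ = cc (α * ((j : ℝ) + 1 - x)) / cc (β * ((j : ℝ) + 1 - x))
  have e1 : α * (x - ((j : ℝ) + 1)) = -(α * ((j : ℝ) + 1 - x)) := by ring
  have e2 : β * (x - ((j : ℝ) + 1)) = -(β * ((j : ℝ) + 1 - x)) := by ring
  rw [e1, e2, cc_neg, cc_neg]

theorem exists_solution {α β x : ℝ} (h1 : ∀ N : ℤ, cc (α * (x + N)) ≠ 0)
    (h2 : ∀ N : ℤ, cc (β * (x + N)) ≠ 0)
    (t1 : Tendsto (fun m => F (α, β, x) m) atTop (𝓝 0))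
    (t2 : Tendsto (fun m => F (β, α, 1 - x) m) atTop (𝓝 0)) :
    ∃ f : ℝ → ℂ, Holds α β x f ∧ (∀ N : ℤ, f (x + N) ≠ 0) ∧
      Tendsto (fun N : ℤ => f (x + N)) cofinite (𝓝 0) := by
  have hf : ∀ N : ℤ, gsol α β x ⌊x + (N : ℝ) - x⌋ = gsol α β x N := by
    intro N
    rw [add_sub_cancel_left, Int.floor_intCast]
  refine ⟨fun y => gsol α β x ⌊y - x⌋, ?_, ?_, ?_⟩
  · intro N
    change gsol α β x ⌊x + (N : ℝ) + 1 - x⌋ * _ = gsol α β x ⌊x + (N : ℝ) - x⌋ * _
    have e1 : x + (N : ℝ) + 1 - x = ((N + 1 : ℤ) : ℝ) := by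
      push_cast
      ring
    rw [hf, e1, Int.floor_intCast]
    exact gsol_rec h1 h2 N
  · intro N
    change gsol α β x ⌊x + (N : ℝ) - x⌋ ≠ 0
    rw [hf]
    exact gsol_ne_zero h1 h2 N
  · change Tendsto (fun N : ℤ => gsol α β x ⌊x + (N : ℝ) - x⌋) cofinite (𝓝 0)
    simp only [hf]
    rw [Metric.tendsto_nhds]
    intro ε hε
    rw [Filter.eventually_cofinite]
    obtain ⟨M1, hM1⟩ := Metric.tendsto_atTop.1 t1 ε hε
    obtain ⟨M2, hM2⟩ := Metric.tendsto_atTop.1 t2 ε hε
    apply (Set.finite_Icc (-(M1 : ℤ)) (M2 : ℤ)).subset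
    intro N hN
    rw [Set.mem_ofPred_eq, dist_zero_right] at hN
    by_contra hcon
    apply hN
    rw [Set.mem_Icc, not_and_or] at hcon
    rcases N with n | m
    · rw [norm_gsol_nat]
      have h3 : M2 ≤ n := by
        simp only [Int.ofNat_eq_natCast] at hcon
        omega
      have := hM2 n h3
      rw [Real.dist_eq, sub_zero] at this
      exact (le_abs_self _).trans_lt this
    · rw [norm_gsol_neg]
      have h3 : M1 ≤ m + 1 := by
        rw [Int.negSucc_eq] at hcon
        omega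
      have := hM1 (m + 1) h3
      rw [Real.dist_eq, sub_zero] at this
      exact (le_abs_self _).trans_lt this

theorem F_sign {α β x : ℝ} {a b : ℝ} (ha : a = 1 ∨ a = -1) (hb : b = 1 ∨ b = -1) (m : ℕ) :
    F (a * α, b * β, x) m = F (α, β, x) m := by
  unfold F
  refine Finset.prod_congr rfl fun j _ => ?_
  change cc (a * α * ((j : ℝ) + 1 - x)) / cc (b * β * ((j : ℝ) + 1 - x)) =
    cc (α * ((j : ℝ) + 1 - x)) / cc (β * ((j : ℝ) + 1 - x))
  have e1 : cc (a * α * ((j : ℝ) + 1 - x)) = cc (α * ((j : ℝ) + 1 - x)) := by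
    rcases ha with h | h
    · rw [h, one_mul]
    · rw [h, neg_one_mul, neg_mul, cc_neg]
  have e2 : cc (b * β * ((j : ℝ) + 1 - x)) = cc (β * ((j : ℝ) + 1 - x)) := by
    rcases hb with h | h
    · rw [h, one_mul]
    · rw [h, neg_one_mul, neg_mul, cc_neg]
  rw [e1, e2]

theorem cc_sign {a u : ℝ} (ha : a = 1 ∨ a = -1) (α : ℝ) : cc (a * α * u) = cc (α * u) := by
  rcases ha with h | h
  · rw [h, one_mul]
  · rw [h, neg_one_mul, neg_mul, cc_neg]

theorem cc_int {α x : ℝ} (h1 : ∀ j : ℕ, cc (α * (j + x)) ≠ 0)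
    (h2 : ∀ j : ℕ, cc (α * (j + 1 - x)) ≠ 0) (N : ℤ) : cc (α * (x + N)) ≠ 0 := by
  rcases N with n | m
  · have := h1 n
    rw [add_comm] at this
    simpa using this
  · have := h2 m
    rw [← cc_neg] at this
    have e1 : -(α * ((m : ℝ) + 1 - x)) = α * (x + (Int.negSucc m : ℤ)) := by
      rw [Int.cast_negSucc]
      push_cast
      ring
    rwa [e1] at this

theorem exists_sign (c : ℝ) : ∃ a : ℝ, (a = 1 ∨ a = -1) ∧ c = a * |c| := by
  rcases le_total 0 c with h | h
  · exact ⟨1, Or.inl rfl, by rw [abs_of_nonneg h, one_mul]⟩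
  · exact ⟨-1, Or.inr rfl, by rw [abs_of_nonpos h]; ring⟩

theorem irrational_sign {a α : ℝ} (ha : a = 1 ∨ a = -1) (h : Irrational α) :
    Irrational (a * α) := by
  rcases ha with h1 | h1
  · rwa [h1, one_mul]
  · rw [h1, neg_one_mul]
    exact h.neg

/-- Every nonempty open set of pairs contains a pair of distinct irrationals with a nowhere
vanishing decaying solution along some orbit. -/
theorem dense_yes {U : Set (ℝ × ℝ)} (hU : IsOpen U) (hne : U.Nonempty) :
    ∃ α β : ℝ, (α, β) ∈ U ∧ Irrational α ∧ Irrational β ∧ α ≠ β ∧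
      ∃ x0 ∈ Set.Icc (0 : ℝ) 1, ∃ f : ℝ → ℂ, Holds α β x0 f ∧ (∀ N : ℤ, f (x0 + N) ≠ 0) ∧
        Tendsto (fun N : ℤ => f (x0 + N)) cofinite (𝓝 0) := by
  obtain ⟨c, hc⟩ := hne
  obtain ⟨ε, hε, hball⟩ := Metric.isOpen_iff.1 hU c hc
  obtain ⟨a, ha, hca⟩ := exists_sign c.1
  obtain ⟨b, hb, hcb⟩ := exists_sign c.2
  obtain ⟨u, v, hu0, hv0, huv, hu1, hv1⟩ : ∃ u v : ℝ, 0 < u ∧ 0 < v ∧ u ≠ v ∧
      abs (u - |c.1|) < ε / 2 ∧ abs (v - |c.2|) < ε / 2 := by
    have n1 := abs_nonneg c.1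
    have n2 := abs_nonneg c.2
    by_cases h : |c.1| = |c.2|
    · refine ⟨|c.1| + ε / 4, |c.2| + ε / 8, by positivity, by positivity, ?_, ?_, ?_⟩
      · rw [h]
        intro h2
        linarith
      · rw [add_sub_cancel_left, abs_of_pos (by positivity)]
        linarith
      · rw [add_sub_cancel_left, abs_of_pos (by positivity)]
        linarith
    · refine ⟨|c.1| + ε / 4, |c.2| + ε / 4, by positivity, by positivity, ?_, ?_, ?_⟩
      · intro h2
        exact h (by linarith)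
      · rw [add_sub_cancel_left, abs_of_pos (by positivity)]
        linarith
      · rw [add_sub_cancel_left, abs_of_pos (by positivity)]
        linarith
  have huv' : 0 < |u - v| := abs_pos.2 (sub_ne_zero.2 huv)
  set η := min (ε / 2) (min (|u - v| / 2) (min u v)) with hη
  have hη0 : 0 < η := by
    rw [hη]
    exact lt_min (by positivity) (lt_min (by positivity) (lt_min hu0 hv0))
  have l1 : η ≤ ε / 2 := min_le_left _ _
  have l2 : η ≤ |u - v| / 2 := (min_le_right _ _).trans (min_le_left _ _)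
  have l3 : η ≤ u := (min_le_right _ _).trans ((min_le_right _ _).trans (min_le_left _ _))
  have l4 : η ≤ v := (min_le_right _ _).trans ((min_le_right _ _).trans (min_le_right _ _))
  obtain ⟨α, β, x, d1, d2, hx0, hx1, i1, i2, z1, z2, z3, z4, t1, t2⟩ :=
    exists_param hu0 hv0 hη0
  have hαpos : 0 < α := by
    rw [abs_lt] at d1
    linarith
  have hβpos : 0 < β := by
    rw [abs_lt] at d2
    linarith
  have hαβ : α ≠ β := by
    intro h
    have : |u - v| < |u - v| := by
      calc |u - v| = |(β - v) - (α - u)| := by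
            rw [h]
            congr 1
            ring
        _ ≤ |β - v| + |α - u| := abs_sub _ _
        _ < η + η := add_lt_add d2 d1
        _ ≤ |u - v| := by linarith
    exact lt_irrefl _ this
  have haa : |a| = 1 := by
    rcases ha with h | h <;> rw [h] <;> simp
  have hbb : |b| = 1 := by
    rcases hb with h | h <;> rw [h] <;> simp
  refine ⟨a * α, b * β, hball ?_, irrational_sign ha i1, irrational_sign hb i2, ?_, x,
    ⟨hx0.le, hx1.le⟩, ?_⟩
  · rw [Metric.mem_ball, Prod.dist_eq, Real.dist_eq, Real.dist_eq]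
    apply max_lt
    · change |a * α - c.1| < ε
      have e1 : a * α - c.1 = a * (α - |c.1|) := by
        rw [mul_sub, ← hca]
      rw [e1, abs_mul, haa, one_mul]
      calc abs (α - |c.1|) ≤ |α - u| + abs (u - |c.1|) := abs_sub_le _ _ _
        _ < η + ε / 2 := add_lt_add d1 hu1
        _ ≤ ε := by linarith
    · change |b * β - c.2| < ε
      have e1 : b * β - c.2 = b * (β - |c.2|) := by
        rw [mul_sub, ← hcb]
      rw [e1, abs_mul, hbb, one_mul]
      calc abs (β - |c.2|) ≤ |β - v| + abs (v - |c.2|) := abs_sub_le _ _ _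
        _ < η + ε / 2 := add_lt_add d2 hv1
        _ ≤ ε := by linarith
  · intro h
    apply hαβ
    have := congrArg abs h
    rwa [abs_mul, abs_mul, haa, hbb, one_mul, one_mul, abs_of_pos hαpos, abs_of_pos hβpos] at this
  · apply exists_solution
    · intro N
      rw [cc_sign ha]
      exact cc_int z1 z3 N
    · intro N
      rw [cc_sign hb]
      exact cc_int z2 z4 N
    · simpa only [F_sign ha hb] using t1
    · simpa only [F_sign hb ha] using t2

end Pool.Agent.H239.TR
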