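import Pool.Agent.H239.TR.Arith

/-!
# The inductive step of the construction
-/

namespace Pool.Agent.H239.TR

open Filter Topology

/-- a state of the construction -/
structure St where
  A : ℕ
  b : ℕ
  s : ℕ
  t : ℕ
  α : ℝ
  β : ℝ
  x : ℝ
  hs : Odd s
  ht : Odd t
  hg : ∀ l : ℕ, l.Prime → l ∣ s → l ∣ t → ¬ l ∣ (A + 1 + b)
  hx0 : 0 < x
  hx1 : x < 1
  hα : α * (A + 1 - x) = s / 2
  hβ : β * (b + x) = t / 2
  m1 : 1 < α * (b + x)
  m2 : 1 < β * (A + 1 - x)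

/-- the parameters `(α, β, x)` of a state -/
def St.pt (σ : St) : ℝ × ℝ × ℝ := (σ.α, σ.β, σ.x)

/-- the mirror state -/
def St.refl (σ : St) : St where
  A := σ.b
  b := σ.A
  s := σ.t
  t := σ.s
  α := σ.β
  β := σ.α
  x := 1 - σ.x
  hs := σ.ht
  ht := σ.hs
  hg := by
    intro l hl h1 h2 h3
    have : σ.b + 1 + σ.A = σ.A + 1 + σ.b := by ring
    rw [this] at h3
    exact σ.hg l hl h2 h1 h3
  hx0 := by linarith [σ.hx1]
  hx1 := by linarith [σ.hx0]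
  hα := by
    have := σ.hβ
    rw [← this]
    ring
  hβ := by
    have := σ.hα
    rw [← this]
    ring
  m1 := by
    have := σ.m2
    have e : σ.β * ((σ.A : ℝ) + (1 - σ.x)) = σ.β * (σ.A + 1 - σ.x) := by ring
    rw [e]
    exact this
  m2 := by
    have := σ.m1
    have e : σ.α * ((σ.b : ℝ) + 1 - (1 - σ.x)) = σ.α * (σ.b + σ.x) := by ring
    rw [e]
    exact this

/-- the mirror map on parameters -/
def rho (y : ℝ × ℝ × ℝ) : ℝ × ℝ × ℝ := (y.2.1, y.1, 1 - y.2.2)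

theorem continuous_rho : Continuous rho := by
  unfold rho
  fun_prop

theorem rho_rho (y : ℝ × ℝ × ℝ) : rho (rho y) = y := by
  unfold rho
  ext <;> simp

theorem refl_pt (σ : St) : σ.refl.pt = rho σ.pt := rfl

/-- the product controlling `|f(x - m)|` -/
noncomputable def F (y : ℝ × ℝ × ℝ) (m : ℕ) : ℝ :=
  ∏ j ∈ Finset.range m, (cc (y.1 * (j + 1 - y.2.2)) / cc (y.2.1 * (j + 1 - y.2.2)))

theorem continuousAt_F (y : ℝ × ℝ × ℝ) (m : ℕ)
    (h : ∀ j < m, cc (y.2.1 * (j + 1 - y.2.2)) ≠ 0) : ContinuousAt (fun z => F z m) y := by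
  unfold F
  refine tendsto_finsetProd _ fun j hj => ?_
  have c1 : Continuous fun z : ℝ × ℝ × ℝ => cc (z.1 * ((j : ℝ) + 1 - z.2.2)) :=
    continuous_cc.comp (by fun_prop)
  have c2 : Continuous fun z : ℝ × ℝ × ℝ => cc (z.2.1 * ((j : ℝ) + 1 - z.2.2)) :=
    continuous_cc.comp (by fun_prop)
  exact (c1.tendsto y).div (c2.tendsto y) (h j (Finset.mem_range.1 hj))

/-- the properties established by one step -/
structure Good (A A' b K : ℕ) (ε : ℝ) (y : ℝ × ℝ × ℝ) : Prop where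
  small : ∀ m, A < m → m ≤ A' + 1 → F y m < ε
  nz1 : ∀ j < A, cc (y.1 * (j + 1 - y.2.2)) ≠ 0
  nz2 : ∀ j < A, cc (y.2.1 * (j + 1 - y.2.2)) ≠ 0
  nz3 : ∀ j < b, cc (y.1 * (j + y.2.2)) ≠ 0
  nz4 : ∀ j < b, cc (y.2.1 * (j + y.2.2)) ≠ 0
  irr1 : ∀ d : ℕ, 0 < d → d ≤ K → Real.sin (Real.pi * (d * y.1)) ≠ 0
  irr2 : ∀ d : ℕ, 0 < d → d ≤ K → Real.sin (Real.pi * (d * y.2.1)) ≠ 0

theorem eventually_ne_of_continuous {X : Type*} [TopologicalSpace X] {g : X → ℝ}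
    (hg : Continuous g) {y : X} (h : g y ≠ 0) : ∀ᶠ z in 𝓝 y, g z ≠ 0 :=
  (isOpen_ne_fun hg continuous_const).mem_nhds h

theorem eventually_good {A A' b K : ℕ} {ε : ℝ} (hε : 0 < ε) (y : ℝ × ℝ × ℝ)
    (h0 : ∀ m, A < m → m ≤ A' + 1 → F y m = 0)
    (hden : ∀ j < A' + 1, cc (y.2.1 * (j + 1 - y.2.2)) ≠ 0)
    (nz1 : ∀ j < A, cc (y.1 * (j + 1 - y.2.2)) ≠ 0)
    (nz2 : ∀ j < A, cc (y.2.1 * (j + 1 - y.2.2)) ≠ 0)
    (nz3 : ∀ j < b, cc (y.1 * (j + y.2.2)) ≠ 0)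
    (nz4 : ∀ j < b, cc (y.2.1 * (j + y.2.2)) ≠ 0)
    (irr1 : ∀ d : ℕ, 0 < d → d ≤ K → Real.sin (Real.pi * (d * y.1)) ≠ 0)
    (irr2 : ∀ d : ℕ, 0 < d → d ≤ K → Real.sin (Real.pi * (d * y.2.1)) ≠ 0) :
    ∀ᶠ z in 𝓝 y, Good A A' b K ε z := by
  have e0 : ∀ᶠ z in 𝓝 y, ∀ m ∈ Finset.Ioc A (A' + 1), F z m < ε := by
    rw [Filter.eventually_all_finset]
    intro m hm
    rw [Finset.mem_Ioc] at hm
    have hc := continuousAt_F y m (fun j hj => hden j (by omega))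
    have hlt : F y m < ε := by
      rw [h0 m hm.1 hm.2]
      exact hε
    exact hc.eventually (gt_mem_nhds hlt)
  have e1 : ∀ᶠ z in 𝓝 y, ∀ j ∈ Finset.range A, cc (z.1 * ((j : ℝ) + 1 - z.2.2)) ≠ 0 := by
    rw [Filter.eventually_all_finset]
    intro j hj
    have c1 : Continuous fun z : ℝ × ℝ × ℝ => cc (z.1 * ((j : ℝ) + 1 - z.2.2)) :=
      continuous_cc.comp (by fun_prop)
    exact eventually_ne_of_continuous c1 (nz1 j (Finset.mem_range.1 hj))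
  have e2 : ∀ᶠ z in 𝓝 y, ∀ j ∈ Finset.range A, cc (z.2.1 * ((j : ℝ) + 1 - z.2.2)) ≠ 0 := by
    rw [Filter.eventually_all_finset]
    intro j hj
    have c1 : Continuous fun z : ℝ × ℝ × ℝ => cc (z.2.1 * ((j : ℝ) + 1 - z.2.2)) :=
      continuous_cc.comp (by fun_prop)
    exact eventually_ne_of_continuous c1 (nz2 j (Finset.mem_range.1 hj))
  have e3 : ∀ᶠ z in 𝓝 y, ∀ j ∈ Finset.range b, cc (z.1 * ((j : ℝ) + z.2.2)) ≠ 0 := by
    rw [Filter.eventually_all_finset]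
    intro j hj
    have c1 : Continuous fun z : ℝ × ℝ × ℝ => cc (z.1 * ((j : ℝ) + z.2.2)) :=
      continuous_cc.comp (by fun_prop)
    exact eventually_ne_of_continuous c1 (nz3 j (Finset.mem_range.1 hj))
  have e4 : ∀ᶠ z in 𝓝 y, ∀ j ∈ Finset.range b, cc (z.2.1 * ((j : ℝ) + z.2.2)) ≠ 0 := by
    rw [Filter.eventually_all_finset]
    intro j hj
    have c1 : Continuous fun z : ℝ × ℝ × ℝ => cc (z.2.1 * ((j : ℝ) + z.2.2)) :=
      continuous_cc.comp (by fun_prop)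
    exact eventually_ne_of_continuous c1 (nz4 j (Finset.mem_range.1 hj))
  have e5 : ∀ᶠ z in 𝓝 y, ∀ d ∈ Finset.Ioc 0 K, Real.sin (Real.pi * ((d : ℝ) * z.1)) ≠ 0 := by
    rw [Filter.eventually_all_finset]
    intro d hd
    rw [Finset.mem_Ioc] at hd
    have c1 : Continuous fun z : ℝ × ℝ × ℝ => Real.sin (Real.pi * ((d : ℝ) * z.1)) := by
      fun_prop
    exact eventually_ne_of_continuous c1 (irr1 d hd.1 hd.2)
  have e6 : ∀ᶠ z in 𝓝 y, ∀ d ∈ Finset.Ioc 0 K, Real.sin (Real.pi * ((d : ℝ) * z.2.1)) ≠ 0 := by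
    rw [Filter.eventually_all_finset]
    intro d hd
    rw [Finset.mem_Ioc] at hd
    have c1 : Continuous fun z : ℝ × ℝ × ℝ => Real.sin (Real.pi * ((d : ℝ) * z.2.1)) := by
      fun_prop
    exact eventually_ne_of_continuous c1 (irr2 d hd.1 hd.2)
  filter_upwards [e0, e1, e2, e3, e4, e5, e6] with z h0 h1 h2 h3 h4 h5 h6
  exact
    { small := fun m hm1 hm2 => h0 m (Finset.mem_Ioc.2 ⟨hm1, hm2⟩)
      nz1 := fun j hj => h1 j (Finset.mem_range.2 hj)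
      nz2 := fun j hj => h2 j (Finset.mem_range.2 hj)
      nz3 := fun j hj => h3 j (Finset.mem_range.2 hj)
      nz4 := fun j hj => h4 j (Finset.mem_range.2 hj)
      irr1 := fun d hd1 hd2 => h5 d (Finset.mem_Ioc.2 ⟨hd1, hd2⟩)
      irr2 := fun d hd1 hd2 => h6 d (Finset.mem_Ioc.2 ⟨hd1, hd2⟩) }

end Pool.Agent.H239.TR
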