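import Pool.Agent.H239.TR.Step

/-!
# The one-sided step
-/

namespace Pool.Agent.H239.TR

open Filter Topology

theorem St.s_pos (σ : St) : 0 < σ.s := σ.hs.pos

theorem St.t_pos (σ : St) : 0 < σ.t := σ.ht.pos

theorem St.α_pos (σ : St) : 0 < σ.α := by
  have h1 := σ.hα
  have h2 : (0 : ℝ) < σ.s := by exact_mod_cast σ.s_pos
  have h3 : 0 < (σ.A : ℝ) + 1 - σ.x := by
    have := σ.hx1
    have : (0 : ℝ) ≤ σ.A := by positivity
    linarith
  by_contra h
  push Not at h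
  have := mul_nonpos_of_nonpos_of_nonneg h h3.le
  linarith

theorem stepI (σ : St) {U : Set (ℝ × ℝ × ℝ)} (hU : U ∈ 𝓝 σ.pt) (K : ℕ) {ε : ℝ} (hε : 0 < ε) :
    ∃ σ' : St, σ'.b = σ.b ∧ σ.A + K ≤ σ'.A ∧ σ'.pt ∈ U ∧
      ∀ᶠ y in 𝓝 σ'.pt, Good σ.A σ'.A σ.b K ε y := by
  obtain ⟨A, b, s, t, α, β, x, hs, ht, hg, hx0, hx1, hα, hβ, m1, m2⟩ := σ
  have hαpos : 0 < α := St.α_pos ⟨A, b, s, t, α, β, x, hs, ht, hg, hx0, hx1, hα, hβ, m1, m2⟩
  have hspos : 0 < s := hs.pos
  have htpos : 0 < t := ht.pos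
  have hsR : (0 : ℝ) < s := by exact_mod_cast hspos
  have htR : (0 : ℝ) < t := by exact_mod_cast htpos
  simp only [St.pt] at hU ⊢
  have hAR : (0 : ℝ) ≤ A := by positivity
  have hbR : (0 : ℝ) ≤ b := by positivity
  -- the curve
  set X : ℝ → ℝ := fun u => A + 1 - s / (2 * u) with hX
  set B : ℝ → ℝ := fun u => t / (2 * (b + X u)) with hB
  have hXα : X α = x := by
    have : (s : ℝ) / (2 * α) = A + 1 - x := by
      field_simp
      linarith
    simp only [hX]
    linarith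
  have hbx : 0 < b + x := by linarith
  have hBα : B α = β := by
    simp only [hB]
    rw [hXα]
    field_simp
    linarith
  have cX : ContinuousAt X α := by
    refine ContinuousAt.sub continuousAt_const ?_
    refine ContinuousAt.div continuousAt_const ?_ (by positivity)
    fun_prop
  have cB : ContinuousAt B α := by
    refine ContinuousAt.div continuousAt_const ?_ (by rw [hXα]; positivity)
    exact continuousAt_const.mul (continuousAt_const.add cX)
  have cΓ : ContinuousAt (fun u => (u, B u, X u)) α :=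
    continuousAt_id.prodMk (cB.prodMk cX)
  have hev1 : ∀ᶠ u in 𝓝 α, (u, B u, X u) ∈ U := by
    apply cΓ.eventually_mem
    rw [hXα, hBα]
    exact hU
  have hev2 : ∀ᶠ u in 𝓝 α, 0 < X u := cX.eventually (lt_mem_nhds (by rw [hXα]; exact hx0))
  have hev3 : ∀ᶠ u in 𝓝 α, X u < 1 := cX.eventually (gt_mem_nhds (by rw [hXα]; exact hx1))
  have hev4 : ∀ᶠ u in 𝓝 α, 1 < u * (b + X u) := by
    have c : ContinuousAt (fun u => u * (b + X u)) α :=
      continuousAt_id.mul (continuousAt_const.add cX)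
    refine c.eventually (lt_mem_nhds ?_)
    change 1 < α * (b + X α)
    rw [hXα]
    exact m1
  have hev5 : ∀ᶠ u in 𝓝 α, 1 < B u * (A + 1 - X u) := by
    have c : ContinuousAt (fun u => B u * (A + 1 - X u)) α :=
      cB.mul (continuousAt_const.sub cX)
    refine c.eventually (lt_mem_nhds ?_)
    change 1 < B α * (A + 1 - X α)
    rw [hXα, hBα]
    exact m2
  obtain ⟨δ, hδ, hball⟩ := Metric.eventually_nhds_iff.1
    (hev1.and (hev2.and (hev3.and (hev4.and hev5))))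
  obtain ⟨p, q, hp, hKp, hKq, hpq, hndvd, hcop⟩ :=
    exists_pq s t (A + 1 + b) ht hg hαpos hδ (A + 1 + b + K + s)
  obtain ⟨g1, g2, g3, g4, g5⟩ := hball (y := (p : ℝ) / q) (by rwa [Real.dist_eq])
  have hp0 : (0 : ℝ) < p := by exact_mod_cast hp.pos
  have hq0' : 0 < q := by omega
  have hq0 : (0 : ℝ) < q := by exact_mod_cast hq0'
  set α' : ℝ := (p : ℝ) / q with hα'
  set x' : ℝ := X α' with hx'
  set β' : ℝ := B α' with hβ'
  set W : ℤ := (2 * ((A + 1 + b : ℕ) : ℤ) * p) - s * q with hW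
  have hα'q : α' * q = p := by
    rw [hα']
    field_simp
  have hx'eq : x' = A + 1 - s * q / (2 * p) := by
    rw [hx', hX, hα']
    field_simp
  have hbx' : 0 < b + x' := by linarith
  have hWR : (W : ℝ) = 2 * p * (b + x') := by
    rw [hW, hx'eq]
    push_cast
    field_simp
    ring
  have hβ'eq : β' * (b + x') = t / 2 := by
    rw [hβ', hB]
    change t / (2 * (b + x')) * (b + x') = t / 2
    field_simp
  have hβ'pos : 0 < β' := by
    have : 0 < β' * (b + x') := by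
      rw [hβ'eq]
      positivity
    exact (pos_iff_pos_of_mul_pos this).2 hbx'
  have hβ'W : β' * W = t * p := by
    rw [hWR]
    linear_combination (2 * p : ℝ) * hβ'eq
  have hα's : α' * (A + 1 - x') = s / 2 := by
    rw [hx'eq, hα']
    field_simp
    ring
  have hWbig : ((A + 1 + b + q : ℕ) : ℤ) < W := by
    have h1 : (2 * q : ℝ) < W := by
      rw [hWR, ← hα'q]
      nlinarith
    have h2 : (((A + 1 + b + q : ℕ) : ℤ) : ℝ) < W := by
      have h3 : ((A + 1 + b : ℕ) : ℝ) ≤ q := by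
        have : A + 1 + b ≤ q := by omega
        exact_mod_cast this
      push_cast at h3 ⊢
      linarith
    exact_mod_cast h2
  have hpi : Prime (p : ℤ) := Nat.prime_iff_prime_int.1 hp
  have hWp : IsCoprime W p := by
    apply IsCoprime.symm
    rw [hpi.coprime_iff_not_dvd]
    intro h
    have h1 : (p : ℤ) ∣ s * q := by
      have h2 : (p : ℤ) ∣ 2 * ((A + 1 + b : ℕ) : ℤ) * p := dvd_mul_left _ _
      have := dvd_sub h2 h
      rw [hW] at this
      simpa using this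
    have h1' : p ∣ s * q := by exact_mod_cast h1
    rcases (Nat.Prime.dvd_mul hp).1 h1' with h3 | h3
    · have := Nat.le_of_dvd hspos h3
      omega
    · exact hndvd h3
  have hWt : IsCoprime W t := hcop
  have hpqcop : Nat.Coprime p q := (Nat.Prime.coprime_iff_not_dvd hp).2 hndvd
  -- nonvanishing
  have hden : ∀ j < A + q + 1, cc (β' * ((j : ℝ) + 1 - x')) ≠ 0 := by
    intro j hj
    refine beta_ne (n := ((j + 1 + b : ℕ) : ℤ)) hWt hWp ht hβ'W (by positivity) ?_ (Or.inl ?_)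
    · have : j + 1 + b ≤ A + 1 + b + q := by omega
      have : ((j + 1 + b : ℕ) : ℤ) ≤ ((A + 1 + b + q : ℕ) : ℤ) := by exact_mod_cast this
      omega
    · rw [← hβ'eq]
      push_cast
      ring
  have hnz1 : ∀ j < A, cc (α' * ((j : ℝ) + 1 - x')) ≠ 0 := by
    intro j hj
    refine alpha_ne (n := (j : ℤ) - A) hpqcop hs hα'q (by omega) ?_ (Or.inl ?_)
    · rw [abs_lt]
      constructor <;> omega
    · rw [← hα's]
      push_cast
      ring
  have hnz3 : ∀ j < b, cc (α' * ((j : ℝ) + x')) ≠ 0 := by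
    intro j hj
    refine alpha_ne (n := -((j : ℤ) + A + 1)) hpqcop hs hα'q (by omega) ?_ (Or.inr ?_)
    · rw [abs_lt]
      constructor <;> omega
    · rw [← hα's]
      push_cast
      ring
  have hnz4 : ∀ j < b, cc (β' * ((j : ℝ) + x')) ≠ 0 := by
    intro j hj
    refine beta_ne (n := (b : ℤ) - j) hWt hWp ht hβ'W (by omega) ?_ (Or.inr ?_)
    · have : ((A + 1 + b + q : ℕ) : ℤ) = A + 1 + b + q := by push_cast; ring
      omega
    · rw [← hβ'eq]
      push_cast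
      ring
  have hirr1 : ∀ d : ℕ, 0 < d → d ≤ K → Real.sin (Real.pi * (d * α')) ≠ 0 := by
    intro d hd1 hd2
    exact sin_alpha_ne hpqcop hα'q hd1 (by omega)
  have hirr2 : ∀ d : ℕ, 0 < d → d ≤ K → Real.sin (Real.pi * (d * β')) ≠ 0 := by
    intro d hd1 hd2
    refine sin_beta_ne hWt hWp hβ'W hd1 ?_
    have : ((A + 1 + b + q : ℕ) : ℤ) = A + 1 + b + q := by push_cast; ring
    omega
  have hF : ∀ m, A < m → m ≤ A + q + 1 → F (α', β', x') m = 0 := by
    intro m hm _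
    unfold F
    refine Finset.prod_eq_zero (Finset.mem_range.2 hm) ?_
    have : cc (α' * ((A : ℝ) + 1 - x')) = 0 := by
      rw [hα's, cc_eq_zero_iff]
      obtain ⟨c, hc⟩ := hs
      refine ⟨c, ?_⟩
      rw [hc]
      push_cast
      ring
    change cc (α' * ((A : ℝ) + 1 - x')) / _ = 0
    rw [this, zero_div]
  refine ⟨
    { A := A + q
      b := b
      s := s + 2 * p
      t := t
      α := α'
      β := β'
      x := x'
      hs := hs.add_even (even_two_mul p)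
      ht := ht
      hg := ?_
      hx0 := g2
      hx1 := g3
      hα := ?_
      hβ := hβ'eq
      m1 := g4
      m2 := ?_ }, rfl, ?_, g1, ?_⟩
  · intro l hl h1 h2 h3
    have e1 : W = ((A + 1 + b : ℕ) : ℤ) * ((s + 2 * p : ℕ) : ℤ) -
        s * ((A + q + 1 + b : ℕ) : ℤ) := by
      rw [hW]
      push_cast
      ring
    have h4 : (l : ℤ) ∣ W := by
      rw [e1]
      exact dvd_sub ((Int.natCast_dvd_natCast.2 h1).mul_left _)
        ((Int.natCast_dvd_natCast.2 h3).mul_left _)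
    have h5 : (l : ℤ) ∣ t := Int.natCast_dvd_natCast.2 h2
    have h6 := hWt.isUnit_of_dvd' h4 h5
    have h7 : Prime (l : ℤ) := Nat.prime_iff_prime_int.1 hl
    exact h7.not_isUnit h6
  · push_cast
    have e1 : α' * ((A : ℝ) + q + 1 - x') = α' * q + α' * (A + 1 - x') := by ring
    rw [e1, hα's, hα'q]
    ring
  · push_cast
    have e1 : β' * ((A : ℝ) + q + 1 - x') = β' * (A + 1 - x') + β' * q := by ring
    rw [e1]
    have : 0 < β' * q := by positivity
    linarith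
  · change A + K ≤ A + q
    omega
  · change ∀ᶠ y in 𝓝 (α', β', x'), Good A (A + q) b K ε y
    exact eventually_good hε (α', β', x') hF hden hnz1 (fun j hj => hden j (by omega)) hnz3 hnz4
      hirr1 hirr2

theorem stepII (σ : St) {U : Set (ℝ × ℝ × ℝ)} (hU : U ∈ 𝓝 σ.pt) (K : ℕ) {ε : ℝ} (hε : 0 < ε) :
    ∃ σ' : St, σ'.A = σ.A ∧ σ.b + K ≤ σ'.b ∧ σ'.pt ∈ U ∧
      ∀ᶠ y in 𝓝 σ'.pt, Good σ.b σ'.b σ.A K ε (rho y) := by
  have hU' : rho ⁻¹' U ∈ 𝓝 σ.refl.pt := by
    apply continuous_rho.continuousAt.preimage_mem_nhds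
    rw [refl_pt, rho_rho]
    exact hU
  obtain ⟨σ', h1, h2, h3, h4⟩ := stepI σ.refl hU' K hε
  refine ⟨σ'.refl, h1, h2, ?_, ?_⟩
  · rw [refl_pt]
    exact h3
  · rw [refl_pt]
    apply continuous_rho.continuousAt.eventually
    rw [rho_rho]
    exact h4

/-- the combined two-sided step -/
theorem step (σ : St) {U : Set (ℝ × ℝ × ℝ)} (hU : U ∈ 𝓝 σ.pt) (K : ℕ) {ε : ℝ} (hε : 0 < ε) :
    ∃ σ' : St, σ.A + K ≤ σ'.A ∧ σ.b + K ≤ σ'.b ∧ σ'.pt ∈ U ∧
      ∀ᶠ y in 𝓝 σ'.pt, Good σ.A σ'.A σ.b K ε y ∧ Good σ.b σ'.b σ'.A K ε (rho y) := by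
  obtain ⟨σ₁, a1, a2, a3, a4⟩ := stepI σ (interior_mem_nhds.2 hU) K hε
  have hU1 : U ∈ 𝓝 σ₁.pt := mem_interior_iff_mem_nhds.1 a3
  have hU2 : {y | ∀ᶠ z in 𝓝 y, Good σ.A σ₁.A σ.b K ε z} ∈ 𝓝 σ₁.pt := a4.eventually_nhds
  obtain ⟨σ₂, b1, b2, b3, b4⟩ := stepII σ₁ (Filter.inter_mem hU1 hU2) K hε
  refine ⟨σ₂, by omega, by omega, b3.1, ?_⟩
  have b5 : ∀ᶠ z in 𝓝 σ₂.pt, Good σ.A σ₁.A σ.b K ε z := b3.2
  filter_upwards [b5, b4] with y hy1 hy2
  rw [b1]
  rw [a1] at hy2
  exact ⟨hy1, hy2⟩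

end Pool.Agent.H239.TR
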